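import Pool.Agent.FS.GlpOrd.Defs

/-!
Formulas, derivability and canonical points of the polymodal provability logic GLP.
-/

set_option autoImplicit false
set_option linter.unusedSectionVars false

namespace Pool.Agent.FS.GlpOrd

namespace Fm

variable {O α β γ : Type}

def neg (a : Fm O α) : Fm O α := imp a bot
def top : Fm O α := imp bot bot
def and (a b : Fm O α) : Fm O α := neg (imp a (neg b))
def conj : List (Fm O α) → Fm O α
  | [] => top
  | a :: l => and a (conj l)

@[simp] theorem subst_var (σ : α → Fm O β) (i : α) : subst σ (var i) = σ i := rfl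
@[simp] theorem subst_bot (σ : α → Fm O β) : subst σ bot = bot := rfl
@[simp] theorem subst_imp (σ : α → Fm O β) (a b : Fm O α) :
    subst σ (imp a b) = imp (subst σ a) (subst σ b) := rfl
@[simp] theorem subst_box (σ : α → Fm O β) (k : O) (a : Fm O α) :
    subst σ (box k a) = box k (subst σ a) := rfl
@[simp] theorem subst_neg (σ : α → Fm O β) (a : Fm O α) : subst σ (neg a) = neg (subst σ a) := rfl
@[simp] theorem subst_top (σ : α → Fm O β) : subst σ top = top := rfl
@[simp] theorem subst_and (σ : α → Fm O β) (a b : Fm O α) :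
    subst σ (and a b) = and (subst σ a) (subst σ b) := rfl

theorem subst_subst (σ : α → Fm O β) (τ : β → Fm O γ) (a : Fm O α) :
    subst τ (subst σ a) = subst (fun i => subst τ (σ i)) a := by
  induction a with
  | var i => rfl
  | bot => rfl
  | imp a b iha ihb => simp [iha, ihb]
  | box k a ih => simp [ih]

theorem subst_var_self (a : Fm O α) : subst var a = a := by
  induction a with
  | var i => rfl
  | bot => rfl
  | imp a b iha ihb => simp [iha, ihb]
  | box k a ih => simp [ih]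

end Fm

open Fm

variable {O α β : Type} [LinearOrder O] [OrderBot O]

/-- Provability in GLP. -/
def Prv (a : Fm O α) : Prop := Der (fun _ => False) a

theorem Der.subst_der {Γ : Fm O α → Prop} {Δ : Fm O β → Prop} (σ : α → Fm O β)
    (h : ∀ a, Γ a → Der Δ (subst σ a)) {a : Fm O α} (ha : Der Γ a) : Der Δ (subst σ a) := by
  induction ha with
  | hyp a ha => exact h a ha
  | k a b => exact Der.k _ _
  | s a b c => exact Der.s _ _ _
  | dne a => exact Der.dne _
  | dist k a b => exact Der.dist _ _ _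
  | loeb k a => exact Der.loeb _ _
  | mono m k a hmk => exact Der.mono _ _ _ hmk
  | dia m k a hmk => exact Der.dia _ _ _ hmk
  | mp a b _ _ iha ihb => exact Der.mp _ _ iha ihb
  | nec k a _ ih => exact Der.nec _ _ ih

theorem Prv.subst (σ : α → Fm O β) {a : Fm O α} (ha : Prv a) : Prv (subst σ a) :=
  Der.subst_der σ (fun _ h => h.elim) ha

theorem Prv.der {Γ : Fm O α → Prop} {a : Fm O α} (ha : Prv a) : Der Γ a := by
  have := Der.subst_der (Δ := Γ) var (fun _ (h : False) => h.elim) ha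
  rwa [subst_var_self] at this

/-- A theory: contains the theorems and is closed under modus ponens. -/
structure Th (T : Fm O α → Prop) : Prop where
  thm : ∀ a, Prv a → T a
  mp : ∀ a b, T a → T (imp a b) → T b

theorem prv_id (a : Fm O α) : Prv (imp a a) :=
  Der.mp _ _ (Der.k a a) (Der.mp _ _ (Der.k a (imp a a)) (Der.s a (imp a a) a))

theorem Th.ded {T : Fm O α → Prop} (h : Th T) (b : Fm O α) : Th (fun c => T (imp b c)) where
  thm := fun a ha => h.mp _ _ (h.thm _ ha) (h.thm _ (Der.k a b))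
  mp := fun a c h1 h2 => h.mp _ _ h1 (h.mp _ _ h2 (h.thm _ (Der.s b a c)))

theorem Th.weak {T : Fm O α → Prop} (h : Th T) (b : Fm O α) {c : Fm O α} (hc : T c) : T (imp b c) :=
  h.mp _ _ hc (h.thm _ (Der.k c b))

theorem Th.self {T : Fm O α → Prop} (h : Th T) (b : Fm O α) : T (imp b b) := h.thm _ (prv_id b)

theorem Th.efq {T : Fm O α → Prop} (h : Th T) (hb : T bot) (c : Fm O α) : T c :=
  h.mp _ _ (h.weak (imp c bot) hb) (h.thm _ (Der.dne c))

theorem Th.cases {T : Fm O α → Prop} (h : Th T) {a b c : Fm O α} (h1 : T (imp b a))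
    (h2 : T (imp (imp b c) a)) : T a := by
  refine h.mp _ _ ?_ (h.thm _ (Der.dne a))
  have h' := h.ded (imp a bot)
  have hna : T (imp (imp a bot) (imp a bot)) := h.self _
  have hbc : T (imp (imp a bot) (imp b c)) := by
    have h'' := h'.ded b
    refine h''.efq ?_ c
    refine h''.mp a bot ?_ (h'.weak b hna)
    exact h''.mp b a (h'.self b) (h'.weak b (h.weak _ h1))
  exact h'.mp a bot (h'.mp _ _ hbc (h.weak _ h2)) hna

/-- A point of the canonical model: a Boolean valuation making all theorems true. -/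
structure Pt (v : Fm O α → Prop) : Prop where
  bot : ¬ v bot
  imp : ∀ a b, v (imp a b) ↔ (v a → v b)
  thm : ∀ a, Prv a → v a

theorem lindenbaum {T : Fm O α → Prop} (h : Th T) {a : Fm O α} (ha : ¬ T a) :
    ∃ v, Pt v ∧ (∀ b, T b → v b) ∧ ¬ v a := by
  obtain ⟨M, hTM, hM⟩ := zorn_le_nonempty₀ {U : Fm O α → Prop | Th U ∧ ¬ U a} (by
    intro c hc hchain y hy
    refine ⟨fun b => ∃ U ∈ c, U b, ⟨⟨fun b hb => ⟨y, hy, (hc hy).1.thm b hb⟩, ?_⟩, ?_⟩, ?_⟩
    · rintro b d ⟨U, hU, hb⟩ ⟨V, hV, hd⟩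
      rcases hchain.total hU hV with hle | hle
      · exact ⟨V, hV, (hc hV).1.mp _ _ (hle _ hb) hd⟩
      · exact ⟨U, hU, (hc hU).1.mp _ _ hb (hle _ hd)⟩
    · rintro ⟨U, hU, hb⟩
      exact (hc hU).2 hb
    · intro U hU b hb
      exact ⟨U, hU, hb⟩) T ⟨h, ha⟩
  have hth : Th M := hM.prop.1
  have hna : ¬ M a := hM.prop.2
  have key : ∀ b, ¬ M b → M (imp b a) := by
    intro b hb
    by_contra hba
    have := hM.le_of_ge (y := fun c => M (imp b c)) ⟨hth.ded b, hba⟩ (fun c hc => hth.weak b hc)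
    exact hb (this b (hth.self b))
  refine ⟨M, ⟨fun hb => hna (hth.efq hb a), fun b c => ⟨fun h1 h2 => hth.mp _ _ h2 h1, ?_⟩,
    hth.thm⟩, fun b hb => hTM b hb, hna⟩
  intro hbc
  by_cases hc : M c
  · exact hth.weak b hc
  · by_contra hn
    exact hna (hth.cases (key b (fun hb => hc (hbc hb))) (key _ hn))

theorem th_prv : Th (Prv : Fm O α → Prop) := ⟨fun _ h => h, fun _ _ h1 h2 => Der.mp _ _ h1 h2⟩

theorem complete {a : Fm O α} (h : ∀ v, Pt v → v a) : Prv a := by
  by_contra hn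
  obtain ⟨v, hv, -, hva⟩ := lindenbaum th_prv hn
  exact hva (h v hv)

namespace Pt

variable {v w u : Fm O α → Prop}

theorem neg (hv : Pt v) (a : Fm O α) : v (Fm.neg a) ↔ ¬ v a := by
  unfold Fm.neg
  rw [hv.imp]
  exact ⟨fun h ha => hv.bot (h ha), fun h ha => (h ha).elim⟩

theorem top (hv : Pt v) : v Fm.top := (hv.imp _ _).2 id

theorem and (hv : Pt v) (a b : Fm O α) : v (Fm.and a b) ↔ v a ∧ v b := by
  unfold Fm.and
  rw [hv.neg, hv.imp, hv.neg]
  tauto

theorem conj_subst {γ : Type} (hv : Pt v) (σ : γ → Fm O α) (l : List (Fm O γ)) :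
    v (subst σ (Fm.conj l)) ↔ ∀ a ∈ l, v (subst σ a) := by
  induction l with
  | nil => simpa [Fm.conj] using hv.top
  | cons a l ih => simp [Fm.conj, hv.and, ih]

theorem comap {γ : Type} (hv : Pt v) (σ : γ → Fm O α) : Pt (fun a => v (subst σ a)) where
  bot := hv.bot
  imp := fun _ _ => hv.imp _ _
  thm := fun _ h => hv.thm _ (h.subst σ)

end Pt

/-- The canonical accessibility relation of level k. -/
def R (k : O) (v w : Fm O α → Prop) : Prop := ∀ a, v (box k a) → w a

namespace Pt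

variable {v w u : Fm O α → Prop}

theorem th_box (hv : Pt v) (k : O) : Th (fun a => v (box k a)) where
  thm := fun _ h => hv.thm _ (Der.nec k _ h)
  mp := fun a b h1 h2 => (hv.imp _ _).1 ((hv.imp _ _).1 (hv.thm _ (Der.dist k a b)) h2) h1

theorem box_of (hv : Pt v) {k : O} {a : Fm O α} (h : ∀ w, Pt w → R k v w → w a) : v (box k a) := by
  by_contra hn
  obtain ⟨w, hw, hR, hwa⟩ := lindenbaum (hv.th_box k) hn
  exact hwa (h w hw hR)

theorem exists_succ (hv : Pt v) {k : O} {a : Fm O α} (h : ¬ v (box k a)) :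
    ∃ w, Pt w ∧ R k v w ∧ ¬ w a := by
  by_contra hn
  push Not at hn
  exact h (hv.box_of hn)

theorem loeb (hv : Pt v) {k : O} {a : Fm O α}
    (h : ∀ w, Pt w → R k v w → w (box k a) → w a) : v (box k a) :=
  (hv.imp _ _).1 (hv.thm _ (Der.loeb k a))
    (hv.box_of (fun w hw hR => (hw.imp _ _).2 (h w hw hR)))

theorem mono (hv : Pt v) {m k : O} (hmk : m ≤ k) {a : Fm O α} (h : v (box m a)) : v (box k a) :=
  (hv.imp _ _).1 (hv.thm _ (Der.mono m k a hmk)) h

theorem four (hv : Pt v) {k : O} {a : Fm O α} (h : v (box k a)) : v (box k (box k a)) := by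
  have h1 : v (box k (Fm.and a (box k a))) := by
    refine hv.loeb (fun w hw hR hb => (hw.and _ _).2 ⟨hR _ h, ?_⟩)
    exact hw.box_of (fun u hu hR' => ((hu.and _ _).1 (hR' _ hb)).1)
  exact hv.box_of (fun w hw hR => ((hw.and _ _).1 (hR _ h1)).2)

theorem R_mono (hv : Pt v) {m k : O} (hmk : m ≤ k) (h : R k v w) : R m v w :=
  fun _ ha => h _ (hv.mono hmk ha)

theorem box_succ (hv : Pt v) {m k : O} (hmk : m ≤ k) (h : R k v w) {a : Fm O α}
    (ha : v (box m a)) : w (box m a) :=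
  h _ (hv.mono hmk (hv.four ha))

theorem R_trans (hv : Pt v) {k : O} (h1 : R k v w) (h2 : R k w u) : R k v u :=
  fun _ ha => h2 _ (hv.box_succ le_rfl h1 ha)

theorem box_pred (hv : Pt v) (hw : Pt w) {m k : O} (hmk : m < k) (h : R k v w) {a : Fm O α}
    (ha : w (box m a)) : v (box m a) := by
  by_contra hn
  have h1 : ¬ v (box m (Fm.imp (Fm.neg a) Fm.bot)) := by
    intro h1
    refine hn (hv.box_of (fun u hu hR => ?_))
    have := (hu.neg _).1 (hR _ h1)
    rw [hu.neg] at this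
    exact not_not.1 this
  have h2 := h _ ((hv.imp _ _).1 (hv.thm _ (Der.dia m k (Fm.neg a) hmk)) ((hv.neg _).2 h1))
  refine (hw.neg _).1 h2 (hw.box_of (fun u hu hR => (hu.neg _).2 ?_))
  rw [hu.neg]
  exact not_not.2 (hR _ ha)

end Pt

/-- Deduction lemma, semantic direction. -/
theorem Der.sem {φ ψ : Fm O α} (h : Der (fun a => a = φ) ψ) :
    ∀ v, Pt v → v φ → v (box ⊥ φ) → v ψ := by
  induction h with
  | hyp a ha => intro v _ h1 _; rw [ha]; exact h1
  | k a b => intro v hv _ _; exact hv.thm _ (Der.k _ _)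
  | s a b c => intro v hv _ _; exact hv.thm _ (Der.s _ _ _)
  | dne a => intro v hv _ _; exact hv.thm _ (Der.dne _)
  | dist k a b => intro v hv _ _; exact hv.thm _ (Der.dist _ _ _)
  | loeb k a => intro v hv _ _; exact hv.thm _ (Der.loeb _ _)
  | mono m k a hmk => intro v hv _ _; exact hv.thm _ (Der.mono _ _ _ hmk)
  | dia m k a hmk => intro v hv _ _; exact hv.thm _ (Der.dia _ _ _ hmk)
  | mp a b _ _ iha ihb => intro v hv h1 h2; exact (hv.imp _ _).1 (ihb v hv h1 h2) (iha v hv h1 h2)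
  | nec k a _ ih =>
    intro v hv _ h2
    exact hv.box_of (fun w hw hR => ih w hw (hR _ (hv.mono bot_le h2))
      (hv.box_succ bot_le hR h2))

theorem Der.of_sem {φ ψ : Fm O α} (h : ∀ v, Pt v → v φ → v (box ⊥ φ) → v ψ) :
    Der (fun a => a = φ) ψ := by
  have h1 : Prv (imp φ (imp (box ⊥ φ) ψ)) :=
    complete (fun v hv => (hv.imp _ _).2 (fun h1 => (hv.imp _ _).2 (fun h2 => h v hv h1 h2)))
  exact Der.mp _ _ (Der.nec ⊥ _ (Der.hyp φ rfl)) (Der.mp _ _ (Der.hyp φ rfl) h1.der)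

/-- A property of points that is determined by the formulas it forces. -/
def Closed (P : (Fm O α → Prop) → Prop) : Prop :=
  ∀ v, Pt v → (∀ a, (∀ w, Pt w → P w → w a) → v a) → P v

theorem compact {ι : Type} [Nonempty ι] (P : ι → (Fm O α → Prop) → Prop)
    (hcl : ∀ i, Closed (P i)) (hne : ∀ i, ∃ v, Pt v ∧ P i v)
    (hdir : ∀ i j, ∃ k, ∀ v, Pt v → P k v → P i v ∧ P j v) :
    ∃ v, Pt v ∧ ∀ i, P i v := by
  have hT : Th (fun a => ∃ i, ∀ w, Pt w → P i w → w a) := by
    refine ⟨fun a ha => ⟨Classical.arbitrary ι, fun w hw _ => hw.thm a ha⟩, ?_⟩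
    rintro a b ⟨i, hi⟩ ⟨j, hj⟩
    obtain ⟨k, hk⟩ := hdir i j
    exact ⟨k, fun w hw hP => (hw.imp _ _).1 (hj w hw (hk w hw hP).2) (hi w hw (hk w hw hP).1)⟩
  have hb : ¬ ∃ i, ∀ w, Pt w → P i w → w bot := by
    rintro ⟨i, hi⟩
    obtain ⟨v, hv, hP⟩ := hne i
    exact hv.bot (hi v hv hP)
  obtain ⟨v, hv, hTv, -⟩ := lindenbaum hT hb
  exact ⟨v, hv, fun i => hcl i v hv (fun a ha => hTv a ⟨i, ha⟩)⟩

theorem closed_of_set (Γ : Fm O α → Prop) : Closed (fun v => ∀ a, Γ a → v a) :=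
  fun _ _ h a ha => h a (fun _ _ hw => hw a ha)

theorem Closed.inter {P Q : (Fm O α → Prop) → Prop} (hP : Closed P) (hQ : Closed Q) :
    Closed (fun v => P v ∧ Q v) :=
  fun v hv h => ⟨hP v hv (fun a ha => h a (fun w hw hPQ => ha w hw hPQ.1)),
    hQ v hv (fun a ha => h a (fun w hw hPQ => ha w hw hPQ.2))⟩

theorem closed_fm (a : Fm O α) : Closed (fun v => v a) :=
  fun _ _ h => h a (fun _ _ hw => hw)

theorem closed_forall {ι : Type} (f : ι → Fm O α) : Closed (fun v => ∀ i, v (f i)) :=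
  fun _ _ h i => h (f i) (fun _ _ hw => hw i)

/-- Evaluation at a new root, given the truth values of the boxed formulas. -/
def ev (B : O → Fm O α → Prop) : Fm O α → Prop
  | var _ => False
  | bot => False
  | imp a b => ev B a → ev B b
  | box k a => B k a

/-- A new root at level N above a family Y of points that share the theory of z below level N
and are reflexive below level N. -/
theorem exists_root (N : O) (z : Fm O α → Prop) (hz : Pt z) (Y : (Fm O α → Prop) → Prop)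
    (hY : ∀ y, Y y → Pt y)
    (hlow : ∀ y, Y y → ∀ k, k < N → ∀ a, y (box k a) ↔ z (box k a))
    (hrefl : ∀ y, Y y → ∀ k, k < N → ∀ a, y (box k a) → y a) :
    ∃ x, Pt x ∧ (∀ k, k < N → ∀ a, x (box k a) ↔ z (box k a)) ∧
      (∀ a, x (box N a) ↔ ∀ y, Y y → y a ∧ y (box N a)) ∧ (∀ k, N < k → ∀ a, x (box k a)) := by
  let B : O → Fm O α → Prop := fun k a =>
    (k < N → z (box k a)) ∧ (k = N → ∀ y, Y y → y a ∧ y (box N a))
  have hB1 : ∀ k, k < N → ∀ a, B k a ↔ z (box k a) := fun k hk a =>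
    ⟨fun h => h.1 hk, fun h => ⟨fun _ => h, fun h' => absurd h' hk.ne⟩⟩
  have hB2 : ∀ a, B N a ↔ ∀ y, Y y → y a ∧ y (box N a) := fun a =>
    ⟨fun h => h.2 rfl, fun h => ⟨fun h' => absurd h' (lt_irrefl _), fun _ => h⟩⟩
  have hB3 : ∀ k, N < k → ∀ a, B k a := fun k hk a =>
    ⟨fun h => absurd h (not_lt.2 hk.le), fun h => absurd h hk.ne'⟩
  refine ⟨ev B, ⟨fun h => h, fun _ _ => Iff.rfl, ?_⟩, hB1, hB2, hB3⟩
  intro a ha
  unfold Prv at ha
  induction ha with
  | hyp a ha => exact ha.elim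
  | k a b => exact fun h _ => h
  | s a b c => exact fun h1 h2 h3 => h1 h3 (h2 h3)
  | dne a => exact fun h => by_contra h
  | dist k a b =>
    intro h1 h2
    refine ⟨fun hk => (hz.th_box k).mp _ _ (h2.1 hk) (h1.1 hk), fun hk y hy => ⟨?_, ?_⟩⟩
    · exact ((hY y hy).imp _ _).1 (h1.2 hk y hy).1 (h2.2 hk y hy).1
    · exact ((hY y hy).th_box N).mp _ _ (h2.2 hk y hy).2 (h1.2 hk y hy).2
  | loeb k a =>
    intro h1
    refine ⟨fun hk => (hz.imp _ _).1 (hz.thm _ (Der.loeb k a)) (h1.1 hk), fun hk y hy => ?_⟩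
    subst hk
    have h2 := ((hY y hy).imp _ _).1 ((hY y hy).thm _ (Der.loeb k a)) (h1.2 rfl y hy).2
    exact ⟨((hY y hy).imp _ _).1 (h1.2 rfl y hy).1 h2, h2⟩
  | mono m k a hmk =>
    intro h1
    refine ⟨fun hk => hz.mono hmk (h1.1 (lt_of_le_of_lt hmk hk)), fun hk y hy => ?_⟩
    subst hk
    rcases hmk.lt_or_eq with hlt | heq
    · have h2 := (hlow y hy m hlt a).2 (h1.1 hlt)
      exact ⟨hrefl y hy m hlt a h2, (hY y hy).mono hmk h2⟩
    · exact h1.2 heq y hy
  | dia m k a hmk =>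
    intro h1
    refine ⟨fun hk => ?_, fun hk y hy => ?_⟩
    · refine (hz.imp _ _).1 (hz.thm _ (Der.dia m k a hmk)) ((hz.neg _).2 (fun h2 => h1 ?_))
      exact (hB1 m (hmk.trans hk) _).2 h2
    · subst hk
      have h2 : y (Fm.neg (box m (imp a bot))) :=
        ((hY y hy).neg _).2 (fun h2 => h1 ((hB1 m hmk _).2 ((hlow y hy m hmk _).1 h2)))
      exact ⟨h2, ((hY y hy).imp _ _).1 ((hY y hy).thm _ (Der.dia m k a hmk)) h2⟩
  | mp a b _ _ iha ihb => exact ihb iha
  | nec k a ha _ =>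
    exact ⟨fun _ => hz.thm _ (Der.nec k a ha),
      fun _ y hy => ⟨(hY y hy).thm _ ha, (hY y hy).thm _ (Der.nec N a ha)⟩⟩

end Pool.Agent.FS.GlpOrd
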