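import Mathlib

/-!
Formulas and derivability of the polymodal provability logic over a linear order of modalities.
-/

set_option autoImplicit false

namespace Pool.Agent.FS.GlpOrd

/-- Formulas with boxes indexed by `O` over a type of variables. -/
inductive Fm (O α : Type) : Type
  | var : α → Fm O α
  | bot : Fm O α
  | imp : Fm O α → Fm O α → Fm O α
  | box : O → Fm O α → Fm O α

namespace Fm

variable {O α β : Type}

/-- Substitution. -/
def subst (σ : α → Fm O β) : Fm O α → Fm O β
  | var i => σ i
  | bot => bot
  | imp a b => imp (subst σ a) (subst σ b)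
  | box k a => box k (subst σ a)

end Fm

open Fm

variable {O α : Type} [LinearOrder O]

/-- Derivability in GLP from hypotheses, with modus ponens and necessitation. -/
inductive Der (Γ : Fm O α → Prop) : Fm O α → Prop
  | hyp (a : Fm O α) : Γ a → Der Γ a
  | k (a b : Fm O α) : Der Γ (imp a (imp b a))
  | s (a b c : Fm O α) : Der Γ (imp (imp a (imp b c)) (imp (imp a b) (imp a c)))
  | dne (a : Fm O α) : Der Γ (imp (imp (imp a bot) bot) a)
  | dist (k : O) (a b : Fm O α) : Der Γ (imp (box k (imp a b)) (imp (box k a) (box k b)))
  | loeb (k : O) (a : Fm O α) : Der Γ (imp (box k (imp (box k a) a)) (box k a))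
  | mono (m k : O) (a : Fm O α) : m ≤ k → Der Γ (imp (box m a) (box k a))
  | dia (m k : O) (a : Fm O α) : m < k →
      Der Γ (imp (imp (box m (imp a bot)) bot) (box k (imp (box m (imp a bot)) bot)))
  | mp (a b : Fm O α) : Der Γ a → Der Γ (imp a b) → Der Γ b
  | nec (k : O) (a : Fm O α) : Der Γ a → Der Γ (box k a)

end Pool.Agent.FS.GlpOrd
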