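import Pool.Agent.FS.GlpOrd.Basic

/-!
Exactness gives the extension property: the boxed formulas true at a point that sees only
points of the formula can be realised along an exact substitution.
-/

set_option autoImplicit false
set_option linter.unusedSectionVars false

namespace Pool.Agent.FS.GlpOrd

open Fm

variable {O α β : Type} [LinearOrder O] [OrderBot O]

/-- The iterated reflection formulas of the reduction property. -/
def Qf (M : O) (gs : List (Fm O α)) : ℕ → Fm O α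
  | 0 => top
  | m + 1 => conj (gs.map (fun g => neg (box M (neg (Fm.and g (Qf M gs m))))))

theorem Qf_succ_iff {v : Fm O β → Prop} (hv : Pt v) (σ : α → Fm O β) (M : O) (gs : List (Fm O α))
    (m : ℕ) : v (subst σ (Qf M gs (m + 1))) ↔
      ∀ g ∈ gs, ∃ w, Pt w ∧ R M v w ∧ w (subst σ g) ∧ w (subst σ (Qf M gs m)) := by
  rw [Qf, hv.conj_subst]
  simp only [List.mem_map, forall_exists_index, and_imp, forall_apply_eq_imp_iff₂, subst_neg,
    subst_box, subst_and]
  refine forall_congr' (fun g => forall_congr' (fun _ => ?_))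
  rw [hv.neg]
  constructor
  · intro h
    obtain ⟨w, hw, hR, hn⟩ := hv.exists_succ h
    rw [hw.neg, not_not, hw.and] at hn
    exact ⟨w, hw, hR, hn.1, hn.2⟩
  · rintro ⟨w, hw, hR, h1, h2⟩ h
    exact (hw.neg _).1 (hR _ h) ((hw.and _ _).2 ⟨h1, h2⟩)

theorem Qf_anti (σ : α → Fm O β) (M : O) (gs : List (Fm O α)) (m : ℕ) :
    ∀ v : Fm O β → Prop, Pt v → v (subst σ (Qf M gs (m + 1))) → v (subst σ (Qf M gs m)) := by
  induction m with
  | zero => intro v hv _; exact hv.top
  | succ m ih =>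
    intro v hv h
    rw [Qf_succ_iff hv] at h ⊢
    intro g hg
    obtain ⟨w, hw, hR, h1, h2⟩ := h g hg
    exact ⟨w, hw, hR, h1, ih w hw h2⟩

theorem Qf_anti' (σ : α → Fm O β) (M : O) (gs : List (Fm O α)) {m m' : ℕ} (h : m ≤ m')
    {v : Fm O β → Prop} (hv : Pt v) (hq : v (subst σ (Qf M gs m'))) : v (subst σ (Qf M gs m)) := by
  induction h with
  | refl => exact hq
  | step _ ih => exact ih (Qf_anti σ M gs _ v hv hq)

/-- If all the reflection formulas are satisfiable after the substitution, there is a point z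
satisfying them all, such that each g is realised in an M-successor of z with the same
M-boxes as z. -/
theorem exists_reflexive (σ : α → Fm O β) (M : O) (gs : List (Fm O α))
    (h : ∀ m, ∃ v : Fm O β → Prop, Pt v ∧ v (subst σ (Qf M gs m))) :
    ∃ z : Fm O β → Prop, Pt z ∧ ∀ g ∈ gs, ∃ y, Pt y ∧ R M z y ∧ y (subst σ g) ∧
      ∀ a, y (box M a) → z (box M a) := by
  let F : (Fm O β → Prop) → Prop := fun v => ∀ m, v (subst σ (Qf M gs m))
  have hFcl : Closed F := closed_forall _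
  have hF0 : ∃ v, Pt v ∧ F v :=
    compact (fun m v => v (subst σ (Qf M gs m))) (fun m => closed_fm _) h
      (fun i j => ⟨max i j, fun v hv hq => ⟨Qf_anti' σ M gs (le_max_left _ _) hv hq,
        Qf_anti' σ M gs (le_max_right _ _) hv hq⟩⟩)
  have hsucc : ∀ z, Pt z → F z → ∀ g ∈ gs, ∃ y, Pt y ∧ R M z y ∧ y (subst σ g) ∧ F y := by
    intro z hz hF g hg
    obtain ⟨y, hy, hP⟩ := compact
      (fun m y => (R M z y ∧ y (subst σ g)) ∧ y (subst σ (Qf M gs m)))
      (fun m => ((closed_of_set _).inter (closed_fm _)).inter (closed_fm _))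
      (fun m => by
        obtain ⟨w, hw, hR, h1, h2⟩ := (Qf_succ_iff hz σ M gs m).1 (hF _) g hg
        exact ⟨w, hw, ⟨hR, h1⟩, h2⟩)
      (fun i j => ⟨max i j, fun v hv hq => ⟨⟨hq.1, Qf_anti' σ M gs (le_max_left _ _) hv hq.2⟩,
        ⟨hq.1, Qf_anti' σ M gs (le_max_right _ _) hv hq.2⟩⟩⟩)
    exact ⟨y, hy, (hP 0).1.1, (hP 0).1.2, fun m => (hP m).2⟩
  obtain ⟨z0, hz0, hF0⟩ := hF0
  obtain ⟨B, -, hB⟩ := zorn_le_nonempty₀
    {B : Fm O β → Prop | ∃ z, Pt z ∧ F z ∧ B = fun a => z (box M a)} (by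
      intro c hc hchain y hy
      have : Nonempty c := ⟨⟨y, hy⟩⟩
      obtain ⟨z, hz, hP⟩ := compact
        (fun (B : c) v => F v ∧ ∀ b, (∃ a, B.1 a ∧ b = box M a) → v b)
        (fun B => hFcl.inter (closed_of_set _))
        (fun B => by
          obtain ⟨z, hz, hF, hB⟩ := hc B.2
          refine ⟨z, hz, hF, ?_⟩
          rintro b ⟨a, ha, rfl⟩
          rw [hB] at ha
          exact ha)
        (fun B C => by
          rcases hchain.total B.2 C.2 with hle | hle
          · refine ⟨C, fun v _ hv => ⟨⟨hv.1, ?_⟩, hv⟩⟩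
            rintro b ⟨a, ha, rfl⟩
            exact hv.2 _ ⟨a, hle a ha, rfl⟩
          · refine ⟨B, fun v _ hv => ⟨hv, ⟨hv.1, ?_⟩⟩⟩
            rintro b ⟨a, ha, rfl⟩
            exact hv.2 _ ⟨a, hle a ha, rfl⟩)
      refine ⟨fun a => z (box M a), ⟨z, hz, (hP ⟨y, hy⟩).1, rfl⟩, fun B hB a ha => ?_⟩
      exact (hP ⟨B, hB⟩).2 _ ⟨a, ha, rfl⟩) (fun a => z0 (box M a)) ⟨z0, hz0, hF0, rfl⟩
  obtain ⟨z, hz, hF, rfl⟩ := hB.prop
  refine ⟨z, hz, fun g hg => ?_⟩
  obtain ⟨y, hy, hR, h1, h2⟩ := hsucc z hz hF g hg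
  refine ⟨y, hy, hR, h1, ?_⟩
  exact hB.le_of_ge (y := fun a => y (box M a)) ⟨y, hy, h2, rfl⟩
    (fun a ha => hz.box_succ le_rfl hR ha)

/-- Limit of points along an ultrafilter. -/
def ulim {ι : Type} (U : Ultrafilter ι) (f : ι → Fm O β → Prop) : Fm O β → Prop :=
  fun a => ∀ᶠ i in (U : Filter ι), f i a

theorem pt_ulim {ι : Type} (U : Ultrafilter ι) {f : ι → Fm O β → Prop} (hf : ∀ i, Pt (f i)) :
    Pt (ulim U f) where
  bot h := by
    obtain ⟨i, hi⟩ := Filter.Eventually.exists h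
    exact (hf i).bot hi
  imp a b := (Filter.eventually_congr (Filter.Eventually.of_forall fun i => (hf i).imp a b)).trans
    Ultrafilter.eventually_imp
  thm a ha := Filter.Eventually.of_forall fun i => (hf i).thm a ha

/-- The lifting lemma. -/
theorem lift_boxes (φ : Fm O α) (σ : α → Fm O β)
    (hlift : ∀ ψ : Fm O α, (∃ y, Pt y ∧ y φ ∧ y (box ⊥ φ) ∧ y ψ) →
      ∃ y : Fm O β → Prop, Pt y ∧ y (subst σ ψ))
    (x : Fm O α → Prop) (hx : Pt x) (hxφ : x (box ⊥ φ)) (Λ : List (O × Fm O α)) :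
    ∃ x' : Fm O β → Prop, Pt x' ∧ ∀ p ∈ Λ, x' (box p.1 (subst σ p.2)) ↔ x (box p.1 p.2) := by
  classical
  obtain ⟨N, hN, hNmin⟩ : ∃ N, (∀ p ∈ Λ, N < p.1 → x (box p.1 p.2)) ∧
      (N = ⊥ ∨ ∃ p ∈ Λ, p.1 = N ∧ ¬ x (box p.1 p.2)) := by
    rcases (Λ.toFinset.filter fun p => ¬ x (box p.1 p.2)).eq_empty_or_nonempty with he | hne
    · refine ⟨⊥, fun p hp _ => ?_, Or.inl rfl⟩
      by_contra hn
      exact Finset.notMem_empty p (he ▸ Finset.mem_filter.2 ⟨List.mem_toFinset.2 hp, hn⟩)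
    · obtain ⟨q, hq, hmax⟩ := Finset.exists_max_image _ Prod.fst hne
      rw [Finset.mem_filter, List.mem_toFinset] at hq
      refine ⟨q.1, fun p hp hlt => ?_, Or.inr ⟨q, hq.1, rfl, hq.2⟩⟩
      by_contra hn
      exact not_le.2 hlt (hmax p (Finset.mem_filter.2 ⟨List.mem_toFinset.2 hp, hn⟩))
  let c : O × Fm O α → Fm O α := fun p =>
    if p.1 < N then (if x (box p.1 p.2) then box p.1 p.2 else neg (box p.1 p.2))
    else if p.1 = N ∧ x (box p.1 p.2) then Fm.and p.2 (box p.1 p.2) else top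
  let core : Fm O α := conj (Λ.map c)
  have hcore : ∀ w, Pt w → R N x w → w core := by
    intro w hw hR
    have := (hw.conj_subst var (Λ.map c)).2 (by
      intro a ha
      obtain ⟨p, -, rfl⟩ := List.mem_map.1 ha
      rw [subst_var_self]
      simp only [c]
      split_ifs with h1 h2 h3
      · exact hx.box_succ h1.le hR h2
      · exact (hw.neg _).2 (fun h => h2 (hx.box_pred hw h1 hR h))
      · obtain ⟨h3, h4⟩ := h3
        rw [h3] at h4 ⊢
        exact (hw.and _ _).2 ⟨hR _ h4, hx.box_succ le_rfl hR h4⟩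
      · exact hw.top)
    rwa [subst_var_self] at this
  have hcore1 : ∀ y : Fm O β → Prop, Pt y → y (subst σ core) → ∀ p ∈ Λ, p.1 < N →
      (y (box p.1 (subst σ p.2)) ↔ x (box p.1 p.2)) := by
    intro y hy h p hp hlt
    have := (hy.conj_subst σ (Λ.map c)).1 h _ (List.mem_map_of_mem hp)
    simp only [c, if_pos hlt] at this
    split_ifs at this with h2
    · exact ⟨fun _ => h2, fun _ => this⟩
    · exact ⟨fun h => ((hy.neg _).1 this h).elim, fun h => (h2 h).elim⟩
  have hcore2 : ∀ y : Fm O β → Prop, Pt y → y (subst σ core) → ∀ p ∈ Λ, p.1 = N →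
      x (box p.1 p.2) → y (subst σ p.2) ∧ y (box N (subst σ p.2)) := by
    intro y hy h p hp heq hb
    have := (hy.conj_subst σ (Λ.map c)).1 h _ (List.mem_map_of_mem hp)
    simp only [c, if_neg (show ¬ p.1 < N from fun h => h.ne heq), if_pos (And.intro heq hb)] at this
    rw [← heq]
    exact (hy.and _ _).1 this
  have hφ : ∀ w, R N x w → w φ ∧ w (box ⊥ φ) := fun w hR =>
    ⟨hR _ (hx.mono bot_le hxφ), hx.box_succ bot_le hR hxφ⟩
  have hneg : ∀ p ∈ Λ, p.1 = N → ¬ x (box p.1 p.2) →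
      ∃ w, Pt w ∧ R N x w ∧ w (Fm.and core (neg p.2)) := by
    intro p _ heq hn
    obtain ⟨w, hw, hR, hwn⟩ := hx.exists_succ hn
    rw [heq] at hR
    exact ⟨w, hw, hR, (hw.and _ _).2 ⟨hcore w hw hR, (hw.neg _).2 hwn⟩⟩
  -- the final assembly, given z and Y
  have fin : ∀ (z : Fm O β → Prop) (_ : Pt z) (Y : (Fm O β → Prop) → Prop)
      (_ : ∀ y, Y y → Pt y ∧ y (subst σ core))
      (_ : ∀ y, Y y → ∀ k, k < N → ∀ a, y (box k a) ↔ z (box k a))
      (_ : ∀ y, Y y → ∀ k, k < N → ∀ a, y (box k a) → y a)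
      (_ : ∀ p ∈ Λ, p.1 = N → ¬ x (box p.1 p.2) → ∃ y, Y y ∧ ¬ y (subst σ p.2)),
      ∃ x' : Fm O β → Prop, Pt x' ∧ ∀ p ∈ Λ, x' (box p.1 (subst σ p.2)) ↔ x (box p.1 p.2) := by
    intro z hz Y hY hlow hrefl hwit
    obtain ⟨x', hx', h1, h2, h3⟩ := exists_root N z hz Y (fun y hy => (hY y hy).1) hlow hrefl
    refine ⟨x', hx', fun p hp => ?_⟩
    rcases lt_trichotomy p.1 N with hlt | heq | hgt
    · rcases hNmin with h0 | ⟨q, hq, hqN, hqn⟩
      · exact absurd (h0 ▸ hlt) not_lt_bot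
      · obtain ⟨y, hy, -⟩ := hwit q hq hqN hqn
        rw [h1 _ hlt, ← hlow y hy _ hlt]
        exact hcore1 y (hY y hy).1 (hY y hy).2 p hp hlt
    · constructor
      · intro h
        by_contra hn
        obtain ⟨y, hy, hyn⟩ := hwit p hp heq hn
        rw [heq] at h
        exact hyn ((h2 _).1 h y hy).1
      · intro h
        rw [heq, h2]
        exact fun y hy => hcore2 y (hY y hy).1 (hY y hy).2 p hp heq h
    · exact ⟨fun _ => hN p hp hgt, fun _ => h3 _ hgt _⟩
  rcases eq_bot_or_bot_lt N with h0 | hpos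
  · obtain ⟨z, hz, -⟩ : ∃ z : Fm O β → Prop, Pt z ∧ True := by
      refine ⟨ev (fun _ _ => True), ⟨fun h => h, fun _ _ => Iff.rfl, ?_⟩, trivial⟩
      intro a ha
      unfold Prv at ha
      induction ha with
      | hyp a ha => exact ha.elim
      | k a b => exact fun h _ => h
      | s a b c => exact fun h1 h2 h3 => h1 h3 (h2 h3)
      | dne a => exact fun h => by_contra h
      | dist k a b => exact fun _ _ => trivial
      | loeb k a => exact fun _ => trivial
      | mono m k a hmk => exact fun _ => trivial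
      | dia m k a hmk => exact fun _ => trivial
      | mp a b _ _ iha ihb => exact ihb iha
      | nec k a ha _ => exact trivial
    refine fin z hz (fun y => Pt y ∧ y (subst σ core)) (fun y hy => hy)
      (fun y _ k hk => absurd (h0 ▸ hk) not_lt_bot)
      (fun y _ k hk => absurd (h0 ▸ hk) not_lt_bot) ?_
    intro p hp heq hn
    obtain ⟨w, hw, hR, hwc⟩ := hneg p hp heq hn
    obtain ⟨y, hy, hyc⟩ := hlift _ ⟨w, hw, (hφ w hR).1, (hφ w hR).2, hwc⟩
    rw [subst_and, hy.and, subst_neg, hy.neg] at hyc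
    exact ⟨y, ⟨hy, hyc.1⟩, hyc.2⟩
  · let gs : List (Fm O α) :=
      (Λ.filter (fun p => decide (p.1 = N ∧ ¬ x (box p.1 p.2)))).map
        (fun p => Fm.and core (neg p.2))
    have hQ : ∀ M, M < N → ∀ m w, Pt w → R N x w → w (Qf M gs m) := by
      intro M hM m
      induction m with
      | zero => intro w hw _; exact hw.top
      | succ m ih =>
        intro w hw hR
        rw [← subst_var_self (Qf M gs (m + 1)), Qf_succ_iff hw]
        intro g hg
        obtain ⟨p, hp, rfl⟩ := List.mem_map.1 hg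
        rw [List.mem_filter, decide_eq_true_eq] at hp
        obtain ⟨u, hu, hRu, huc⟩ := hneg p hp.1 hp.2.1 hp.2.2
        refine ⟨u, hu, fun a ha => ?_, ?_, ?_⟩
        · exact hRu _ (hx.mono hM.le (hx.box_pred hw hM hR ha))
        · rwa [subst_var_self]
        · rw [subst_var_self]
          exact ih u hu hRu
    have hall := fun M : {M : O // M < N} => exists_reflexive σ M.1 gs (by
      intro m
      rcases hNmin with h0 | ⟨q, hq, hqN, hqn⟩
      · exact absurd h0 hpos.ne'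
      · obtain ⟨w, hw, hR, -⟩ := hneg q hq hqN hqn
        exact hlift _ ⟨w, hw, (hφ w hR).1, (hφ w hR).2, hQ M.1 M.2 m w hw hR⟩)
    choose z hz y hy hR hg hb using hall
    have : Nonempty {M : O // M < N} := ⟨⟨⊥, hpos⟩⟩
    let U : Ultrafilter {M : O // M < N} := Ultrafilter.of Filter.atTop
    have hU : ∀ k (hk : k < N), ∀ᶠ M in (U : Filter {M : O // M < N}), k ≤ M.1 := fun k hk =>
      Ultrafilter.of_le _ (Filter.eventually_ge_atTop (⟨k, hk⟩ : {M : O // M < N}))
    have hc : ∀ g (h : g ∈ gs), ∃ p ∈ Λ, g = Fm.and core (neg p.2) := fun g h => by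
      obtain ⟨p, hp, rfl⟩ := List.mem_map.1 h
      exact ⟨p, (List.mem_filter.1 hp).1, rfl⟩
    have hlg : ∀ g (h : g ∈ gs), ulim U (fun M => y M g h) (subst σ g) := fun g h =>
      Filter.Eventually.of_forall fun M => hg M g h
    refine fin (ulim U z) (pt_ulim U hz) (fun v => ∃ g, ∃ h : g ∈ gs, v = ulim U fun M => y M g h)
      ?_ ?_ ?_ ?_
    · rintro _ ⟨g, h, rfl⟩
      have hp := pt_ulim U fun M => hy M g h
      refine ⟨hp, ?_⟩
      have h1 := hlg g h
      obtain ⟨p, -, rfl⟩ := hc g h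
      rw [subst_and, hp.and] at h1
      exact h1.1
    · rintro _ ⟨g, h, rfl⟩ k hk a
      refine Filter.eventually_congr ((hU k hk).mono fun M hM => ⟨fun h1 => ?_,
        fun h1 => (hz M).box_succ hM (hR M g h) h1⟩)
      rcases hM.lt_or_eq with hlt | heq
      · exact (hz M).box_pred (hy M g h) hlt (hR M g h) h1
      · subst heq
        exact hb M g h a h1
    · rintro _ ⟨g, h, rfl⟩ k hk a h1
      exact ((hU k hk).and h1).mono fun M hM =>
        hR M g h _ (hb M g h a ((hy M g h).mono hM.1 hM.2))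
    · intro p hp heq hn
      have h : Fm.and core (neg p.2) ∈ gs :=
        List.mem_map.2 ⟨p, by rw [List.mem_filter, decide_eq_true_eq]; exact ⟨hp, heq, hn⟩, rfl⟩
      have hq := pt_ulim U fun M => hy M _ h
      have h1 := hlg _ h
      rw [subst_and, hq.and, subst_neg, hq.neg] at h1
      exact ⟨_, ⟨_, h, rfl⟩, h1.2⟩

end Pool.Agent.FS.GlpOrd
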